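import Pool.Agent.H27.L1.H34.GA.Defs

/-!
# The window identity of the approximate functional equation (board gb, MP_52e316_nt)
-/

set_option autoImplicit false

namespace Pool.Agent.H27.L1.H31.GB

open MeasureTheory Set Pool.Agent.H27.L1.H34.GA

/-- the power function of the Mellin transform -/
noncomputable def pwm (m : ℕ) (s : ℂ) (r : ℝ) : ℂ :=
  ((r : ℝ) : ℂ) ^ (-((m : ℂ) * (s + ((m : ℂ) - 1) / 2)) - 1)

/-- a finite part of `thA` -/
noncomputable def thF (m : ℕ) (ψ : ℝ → ℂ) (lam : ℕ → ℂ) (A : Finset ℕ) (r : ℝ) : ℂ :=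
  ∑ n ∈ A, (n : ℂ) ^ (((m : ℂ) - 1) / 2) * lam n * ψ (r * (n : ℝ) ^ (-(1 / (m : ℝ))))

theorem cpow_pos {x : ℝ} (hx : 0 < x) (e : ℂ) :
    ((x : ℝ) : ℂ) ^ e = Complex.exp ((Real.log x : ℝ) * e) := by
  rw [Complex.cpow_def_of_ne_zero (by exact_mod_cast hx.ne'), Complex.ofReal_log hx.le]

theorem pwm_norm {m : ℕ} (t : ℝ) {r : ℝ} (hr : 0 < r) :
    ‖pwm m (1 / 2 + t * Complex.I) r‖ = r ^ (-((m : ℝ) ^ 2 / 2) - 1) := by
  unfold pwm
  rw [Complex.norm_cpow_eq_rpow_re_of_pos hr]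
  congr 1
  simp
  ring

theorem pwm_cont (m : ℕ) (s : ℂ) : ContinuousOn (pwm m s) (Ioi 0) := by
  intro r hr
  have h1 : ContinuousAt (fun r : ℝ => ((r : ℝ) : ℂ)) r := Complex.continuous_ofReal.continuousAt
  exact (h1.cpow continuousAt_const (Complex.ofReal_mem_slitPlane.2 hr)).continuousWithinAt

/-- scaling -/
theorem scal_pwm {m : ℕ} (hm : 1 ≤ m) (s : ℂ) {n : ℕ} (hn : 1 ≤ n) {r : ℝ} (hr : 0 < r) :
    pwm m s r = ((n : ℝ) ^ (-(1 / (m : ℝ))) : ℝ) * (n : ℂ) ^ (-(s + ((m : ℂ) - 1) / 2)) *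
      pwm m s (r * (n : ℝ) ^ (-(1 / (m : ℝ)))) := by
  have hn0 : (0 : ℝ) < n := by exact_mod_cast hn
  have hm0 : (m : ℂ) ≠ 0 := by
    have : (m : ℝ) ≠ 0 := by
      have : (0 : ℝ) < m := by exact_mod_cast hm
      exact this.ne'
    exact_mod_cast this
  unfold pwm
  have e1 : (((n : ℝ) ^ (-(1 / (m : ℝ))) : ℝ) : ℂ) =
      Complex.exp ((Real.log n : ℝ) * (-(1 / (m : ℂ)))) := by
    rw [Complex.ofReal_cpow hn0.le, cpow_pos hn0]
    push_cast
    rfl
  have e2 : ∀ w : ℂ, (n : ℂ) ^ w = Complex.exp ((Real.log n : ℝ) * w) := fun w => by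
    rw [← Complex.ofReal_natCast, cpow_pos hn0]
  rw [cpow_pos hr, cpow_pos (by positivity), e1, e2, ← Complex.exp_add, ← Complex.exp_add,
    Real.log_mul hr.ne' (by positivity), Real.log_rpow hn0]
  congr 1
  push_cast
  field_simp
  ring

/-- integrability of the terms -/
theorem int_scal {m : ℕ} (hm : 1 ≤ m) {ψ : ℝ → ℂ} (s : ℂ)
    (hi : IntegrableOn (fun r => ψ r * pwm m s r) (Ioi 0)) {n : ℕ} (hn : 1 ≤ n) :
    IntegrableOn (fun r => ψ (r * (n : ℝ) ^ (-(1 / (m : ℝ)))) * pwm m s r) (Ioi 0) ∧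
    ∫ r in Ioi (0 : ℝ), ψ (r * (n : ℝ) ^ (-(1 / (m : ℝ)))) * pwm m s r =
      (n : ℂ) ^ (-(s + ((m : ℂ) - 1) / 2)) * MelA m ψ s := by
  have hn0 : (0 : ℝ) < n := by exact_mod_cast hn
  obtain ⟨c, hc⟩ : ∃ c : ℝ, c = (n : ℝ) ^ (-(1 / (m : ℝ))) := ⟨_, rfl⟩
  have hc0 : 0 < c := by
    rw [hc]
    positivity
  have h1 : ∀ r ∈ Ioi (0 : ℝ), ψ (r * (n : ℝ) ^ (-(1 / (m : ℝ)))) * pwm m s r =
      (c : ℂ) * (n : ℂ) ^ (-(s + ((m : ℂ) - 1) / 2)) * (ψ (r * c) * pwm m s (r * c)) := by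
    intro r hr
    rw [scal_pwm hm s hn hr, ← hc]
    ring
  have h2 : IntegrableOn (fun r => ψ (r * c) * pwm m s (r * c)) (Ioi 0) := by
    have h3 := (integrableOn_Ioi_comp_mul_right_iff (fun r => ψ r * pwm m s r) 0 hc0).2
      (by rwa [zero_mul])
    exact h3
  refine ⟨?_, ?_⟩
  · rw [integrableOn_congr_fun h1 measurableSet_Ioi]
    exact h2.const_mul _
  · rw [setIntegral_congr_fun measurableSet_Ioi h1, integral_const_mul]
    have h3 := integral_comp_mul_right_Ioi (fun r => ψ r * pwm m s r) 0 hc0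
    rw [zero_mul] at h3
    rw [h3, Complex.real_smul]
    have h4 : (c : ℂ) ≠ 0 := by exact_mod_cast hc0.ne'
    have h5 : MelA m ψ s = ∫ r in Ioi (0 : ℝ), ψ r * pwm m s r := rfl
    rw [h5]
    push_cast
    field_simp

/-- the Mellin transform of a finite part -/
theorem mel_thF {m : ℕ} (hm : 1 ≤ m) {ψ : ℝ → ℂ} (s : ℂ)
    (hi : IntegrableOn (fun r => ψ r * pwm m s r) (Ioi 0)) (lam : ℕ → ℂ) {A : Finset ℕ}
    (hA : ∀ n ∈ A, 1 ≤ n) :
    IntegrableOn (fun r => thF m ψ lam A r * pwm m s r) (Ioi 0) ∧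
    ∫ r in Ioi (0 : ℝ), thF m ψ lam A r * pwm m s r =
      (∑ n ∈ A, lam n * (n : ℂ) ^ (-s)) * MelA m ψ s := by
  have e1 : ∀ r, thF m ψ lam A r * pwm m s r = ∑ n ∈ A,
      (n : ℂ) ^ (((m : ℂ) - 1) / 2) * lam n *
        (ψ (r * (n : ℝ) ^ (-(1 / (m : ℝ)))) * pwm m s r) := by
    intro r
    unfold thF
    rw [Finset.sum_mul]
    exact Finset.sum_congr rfl fun n _ => mul_assoc _ _ _
  simp only [e1]
  have h1 : ∀ n ∈ A, Integrable (fun r => (n : ℂ) ^ (((m : ℂ) - 1) / 2) * lam n *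
        (ψ (r * (n : ℝ) ^ (-(1 / (m : ℝ)))) * pwm m s r)) (volume.restrict (Ioi 0)) :=
    fun n hn => (int_scal hm s hi (hA n hn)).1.const_mul _
  refine ⟨integrable_finsetSum _ h1, ?_⟩
  rw [integral_finsetSum _ h1, Finset.sum_mul]
  refine Finset.sum_congr rfl fun n hn => ?_
  have hn0 : (n : ℂ) ≠ 0 := by
    have : 0 < n := hA n hn
    exact_mod_cast this.ne'
  rw [integral_const_mul, (int_scal hm s hi (hA n hn)).2]
  have e2 : (n : ℂ) ^ (-s) = (n : ℂ) ^ (((m : ℂ) - 1) / 2) *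
      (n : ℂ) ^ (-(s + ((m : ℂ) - 1) / 2)) := by
    rw [← Complex.cpow_add _ _ hn0]
    congr 1
    ring
  rw [e2]
  ring

/-- the window identity -/
theorem win {m : ℕ} (hm : 1 ≤ m) {ψ : ℝ → ℂ} (hψ : ContinuousOn ψ (Ioi 0))
    (hi : IntegrableOn (fun r => ‖ψ r‖ * r ^ (-((m : ℝ) ^ 2 / 2) - 1)) (Ioi 0))
    {w : ℝ → ℝ} {k : ℝ → ℂ} (hki : Integrable k)
    (hw : ∀ u : ℝ, (w u : ℂ) = ∫ τ : ℝ, k τ * Complex.exp ((τ : ℂ) * u * Complex.I))
    (lam : ℕ → ℂ) {A : Finset ℕ} (hA : ∀ n ∈ A, 1 ≤ n) (v t : ℝ) :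
    ∫ r in Ioi (0 : ℝ), thF m ψ lam A r * pwm m (1 / 2 + t * Complex.I) r *
      (w (Real.log r - v) : ℂ) =
    ∫ τ : ℝ, k τ * Complex.exp (-((τ : ℂ) * v * Complex.I)) *
      ((∑ n ∈ A, lam n * (n : ℂ) ^ (-(1 / 2 + ((t - τ / m : ℝ) : ℂ) * Complex.I))) *
        MelA m ψ (1 / 2 + ((t - τ / m : ℝ) : ℂ) * Complex.I)) := by
  have hm0 : (m : ℝ) ≠ 0 := by
    have : (0 : ℝ) < m := by exact_mod_cast hm
    exact this.ne'
  have hii : ∀ t : ℝ, IntegrableOn (fun r => ψ r * pwm m (1 / 2 + t * Complex.I) r) (Ioi 0) := by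
    intro t
    refine Integrable.mono' hi ?_ ?_
    · exact (hψ.mul (pwm_cont m _)).aestronglyMeasurable measurableSet_Ioi
    · rw [ae_restrict_iff' measurableSet_Ioi]
      refine Filter.Eventually.of_forall fun r hr => ?_
      rw [norm_mul, pwm_norm t hr]
  have h1 := mel_thF hm (1 / 2 + t * Complex.I) (hii t) lam hA
  -- the double integral
  have hdi : Integrable (fun p : ℝ × ℝ => thF m ψ lam A p.1 * pwm m (1 / 2 + t * Complex.I) p.1 *
      (k p.2 * Complex.exp ((p.2 : ℂ) * ((Real.log p.1 - v : ℝ) : ℂ) * Complex.I)))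
      ((volume.restrict (Ioi 0)).prod volume) := by
    have h2 := h1.1.mul_prod hki (ν := volume)
    refine h2.mono ?_ ?_
    · have hm1 : Measurable fun p : ℝ × ℝ =>
          Complex.exp ((p.2 : ℂ) * ((Real.log p.1 - v : ℝ) : ℂ) * Complex.I) := by
        refine Complex.measurable_exp.comp (Measurable.mul_const (Measurable.mul ?_ ?_) _)
        · exact Complex.measurable_ofReal.comp measurable_snd
        · exact Complex.measurable_ofReal.comp
            ((Real.measurable_log.comp measurable_fst).sub_const v)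
      have h3 := h2.1.mul hm1.aestronglyMeasurable
      refine h3.congr (Filter.Eventually.of_forall fun p => ?_)
      show (thF m ψ lam A p.1 * pwm m (1 / 2 + t * Complex.I) p.1 * k p.2) *
        Complex.exp ((p.2 : ℂ) * ((Real.log p.1 - v : ℝ) : ℂ) * Complex.I) = _
      ring
    · refine Filter.Eventually.of_forall fun p => ?_
      have e1 : ‖Complex.exp ((p.2 : ℂ) * ((Real.log p.1 - v : ℝ) : ℂ) * Complex.I)‖ = 1 := by
        rw [← Complex.ofReal_mul, Complex.norm_exp_ofReal_mul_I]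
      rw [norm_mul, norm_mul (k p.2), e1, mul_one, ← norm_mul]
  have hsw := integral_integral_swap (f := fun (r τ : ℝ) => thF m ψ lam A r *
    pwm m (1 / 2 + t * Complex.I) r * (k τ * Complex.exp ((τ : ℂ) *
      ((Real.log r - v : ℝ) : ℂ) * Complex.I))) hdi
  have hL : ∫ r in Ioi (0 : ℝ), thF m ψ lam A r * pwm m (1 / 2 + t * Complex.I) r *
      (w (Real.log r - v) : ℂ) = ∫ r in Ioi (0 : ℝ), ∫ τ : ℝ, thF m ψ lam A r *
    pwm m (1 / 2 + t * Complex.I) r * (k τ * Complex.exp ((τ : ℂ) *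
      ((Real.log r - v : ℝ) : ℂ) * Complex.I)) := by
    refine integral_congr_ae (Filter.Eventually.of_forall fun r => ?_)
    show _ = ∫ τ : ℝ, _
    rw [integral_const_mul, ← hw]
  rw [hL, hsw]
  refine integral_congr_ae (Filter.Eventually.of_forall fun τ => ?_)
  beta_reduce
  rw [← (mel_thF hm (1 / 2 + ((t - τ / m : ℝ) : ℂ) * Complex.I) (hii _) lam hA).2,
    ← integral_const_mul]
  refine setIntegral_congr_fun measurableSet_Ioi fun r hr => ?_
  have hr0 : (0 : ℝ) < r := hr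
  have e2 : pwm m (1 / 2 + ((t - τ / m : ℝ) : ℂ) * Complex.I) r =
      pwm m (1 / 2 + t * Complex.I) r * Complex.exp ((τ : ℂ) * (Real.log r : ℝ) * Complex.I) := by
    have hm0' : (m : ℂ) ≠ 0 := by exact_mod_cast hm0
    unfold pwm
    rw [cpow_pos hr0, cpow_pos hr0, ← Complex.exp_add]
    congr 1
    push_cast
    field_simp
    ring
  have e3 : Complex.exp ((τ : ℂ) * ((Real.log r - v : ℝ) : ℂ) * Complex.I) =
      Complex.exp (-((τ : ℂ) * v * Complex.I)) *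
        Complex.exp ((τ : ℂ) * (Real.log r : ℝ) * Complex.I) := by
    rw [← Complex.exp_add]
    congr 1
    push_cast
    ring
  show _ * _ * (_ * _) = _ * _ * (_ * _)
  rw [e2, e3]
  ring

end Pool.Agent.H27.L1.H31.GB
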